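import Mathlib

set_option autoImplicit false

namespace Pool.Agent.H.MP_90e313_an

open Set Filter Topology

instance fact4 : Fact ((1 : ENNReal) ≤ 4) := ⟨by norm_num⟩

abbrev K2 : Type := lp (fun _ : ℕ => ℝ) 2

abbrev K4 : Type := lp (fun _ : ℕ => ℝ) 4

def L2 : Type := K2

def L4 : Type := K4

noncomputable instance : NormedAddCommGroup L2 := inferInstanceAs (NormedAddCommGroup K2)
noncomputable instance : InnerProductSpace ℝ L2 := inferInstanceAs (InnerProductSpace ℝ K2)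
instance : CompleteSpace L2 := inferInstanceAs (CompleteSpace K2)
noncomputable instance : NormedAddCommGroup L4 := inferInstanceAs (NormedAddCommGroup K4)
noncomputable instance : NormedSpace ℝ L4 := inferInstanceAs (NormedSpace ℝ K4)

def co2 (x : L2) (n : ℕ) : ℝ := (show K2 from x) n
def co4 (x : L4) (n : ℕ) : ℝ := (show K4 from x) n

instance : CoeFun L2 fun _ => ℕ → ℝ := ⟨co2⟩
instance : CoeFun L4 fun _ => ℕ → ℝ := ⟨co4⟩

lemma add2 (x y : L2) (k : ℕ) : (x + y) k = x k + y k := rfl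
lemma sub2 (x y : L2) (k : ℕ) : (x - y) k = x k - y k := rfl
lemma smul2 (c : ℝ) (x : L2) (k : ℕ) : (c • x) k = c * x k := rfl
lemma zero2 (k : ℕ) : (0 : L2) k = 0 := rfl
lemma ext2 {x y : L2} (h : ∀ k, x k = y k) : x = y := lp.ext (funext h)
lemma ext4 {x y : L4} (h : ∀ k, x k = y k) : x = y := lp.ext (funext h)

lemma le2 (x : L2) (k : ℕ) : |x k| ≤ ‖x‖ :=
  lp.norm_apply_le_norm (by norm_num) (show K2 from x) k

lemma hin (x y : L2) : HasSum (fun k => x k * y k) (inner ℝ x y) :=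
  (lp.hasSum_inner (𝕜 := ℝ) (show K2 from x) (show K2 from y)).congr_fun fun k => by
    simp only [RCLike.inner_apply, conj_trivial]
    exact mul_comm _ _

lemma n2 (x : L2) : HasSum (fun k => x k ^ 2) (‖x‖ ^ 2) := by
  rw [← real_inner_self_eq_norm_sq]
  exact (hin x x).congr_fun fun k => sq _

lemma n4 (u : L4) : HasSum (fun k => u k ^ 4) (‖u‖ ^ 4) := by
  have := lp.hasSum_norm (p := 4) (by norm_num) (show K4 from u)
  simp only [ENNReal.toReal_ofNat, Real.norm_eq_abs, Real.rpow_ofNat] at this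
  exact this.congr_fun fun k => (Even.pow_abs (by norm_num) _).symm

noncomputable def mk2 (f : ℕ → ℝ) (h : Summable fun k => f k ^ 2) : L2 :=
  show K2 from ⟨f, memℓp_gen (by simpa using h)⟩

lemma mk2_apply (f : ℕ → ℝ) (h : Summable fun k => f k ^ 2) (k : ℕ) : mk2 f h k = f k := rfl

lemma p4 (x : L2) (k : ℕ) : x k ^ 4 ≤ ‖x‖ ^ 2 * x k ^ 2 := by
  have h := sq_le_sq' (abs_le.1 (le2 x k)).1 (abs_le.1 (le2 x k)).2
  nlinarith [sq_nonneg (x k)]

noncomputable def io0 (x : L2) : L4 :=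
  show K4 from ⟨fun k => x k, memℓp_gen (by
    simp only [ENNReal.toReal_ofNat, Real.norm_eq_abs, Real.rpow_ofNat]
    refine Summable.of_nonneg_of_le (fun k => by positivity) (fun k => ?_)
      ((n2 x).summable.mul_left (‖x‖ ^ 2))
    rw [Even.pow_abs (by norm_num)]
    exact p4 x k)⟩

noncomputable def io : L2 →L[ℝ] L4 :=
  LinearMap.mkContinuous ⟨⟨io0, fun _ _ => ext4 fun _ => rfl⟩, fun _ _ => ext4 fun _ => rfl⟩ 1
    fun x => by
      rw [one_mul]
      refine le_of_pow_le_pow_left₀ (n := 4) (by norm_num) (norm_nonneg _) ?_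
      have := hasSum_le (p4 x) (n4 (io0 x)) ((n2 x).mul_left (‖x‖ ^ 2))
      exact this.trans_eq (by ring)

lemma q4 (x : L2) : HasSum (fun k => x k ^ 4) (‖io x‖ ^ 4) := n4 (io x)

lemma io_inj {x : L2} (h : io x = 0) : x = 0 :=
  ext2 fun k => congrArg (fun u : L4 => u k) h

noncomputable def ev (k : ℕ) : L2 →L[ℝ] ℝ :=
  LinearMap.mkContinuous ⟨⟨fun x => x k, fun _ _ => rfl⟩, fun _ _ => rfl⟩ 1 fun x => by
    simpa using le2 x k

lemma ev_apply (k : ℕ) (x : L2) : ev k x = x k := rfl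

noncomputable def fin (b : ℕ) (f : ℕ → ℝ) : L2 :=
  mk2 (fun l => if l < b then f l else 0) (summable_of_ne_finset_zero (s := Finset.range b)
    fun l hl => by rw [if_neg (by simpa using hl)]; simp)

lemma fin_apply (b : ℕ) (f : ℕ → ℝ) (l : ℕ) : fin b f l = if l < b then f l else 0 := rfl

noncomputable def e (j : ℕ) : L2 := fin (j + 1) fun l => if l = j then 1 else 0

lemma e_apply (j l : ℕ) : e j l = if l = j then 1 else 0 := by
  rw [e, fin_apply]
  split_ifs <;> first | rfl | omega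

lemma in_e (x : L2) (j : ℕ) : inner ℝ x (e j) = x j := by
  rw [← (hin x (e j)).tsum_eq, tsum_eq_single j fun l hl => by rw [e_apply, if_neg hl, mul_zero],
    e_apply, if_pos rfl, mul_one]

lemma e_norm (j : ℕ) : ‖e j‖ = 1 := by
  have := in_e (e j) j
  rw [real_inner_self_eq_norm_sq, e_apply, if_pos rfl] at this
  exact (pow_eq_one_iff_of_nonneg (norm_nonneg _) two_ne_zero).1 this

lemma weak0 (f : L2 →L[ℝ] ℝ) : Tendsto (fun j => f (e j)) atTop (𝓝 0) := by
  obtain ⟨v, rfl⟩ := (InnerProductSpace.toDual ℝ L2).surjective f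
  simp only [InnerProductSpace.toDual_apply_apply, in_e]
  have := (n2 v).summable.tendsto_atTop_zero.sqrt
  simp only [Real.sqrt_sq_eq_abs, Real.sqrt_zero] at this
  exact tendsto_zero_iff_abs_tendsto_zero _ |>.2 this

noncomputable def av (k : ℕ) : L2 →L[ℝ] ℝ := ((k : ℝ) + 1)⁻¹ • ∑ l ∈ Finset.range (k + 1), ev l

lemma av_apply (k : ℕ) (x : L2) :
    av k x = (∑ l ∈ Finset.range (k + 1), x l) / ((k : ℝ) + 1) := by
  rw [av, _root_.smul_apply, _root_.sum_apply, smul_eq_mul, div_eq_inv_mul]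
  rfl

lemma av_le (k : ℕ) (x : L2) : |av k x| ≤ ‖x‖ := by
  rw [av_apply, abs_div, abs_of_pos (show (0 : ℝ) < k + 1 by positivity),
    div_le_iff₀ (by positivity)]
  refine (Finset.abs_sum_le_sum_abs _ _).trans ?_
  have := Finset.sum_le_card_nsmul (Finset.range (k + 1)) (fun l => |x l|) ‖x‖ fun l _ => le2 x l
  rw [Finset.card_range, nsmul_eq_mul] at this
  push_cast at this
  linarith

noncomputable def g (k : ℕ) : L2 →L[ℝ] ℝ := av k - ev (k + 1)

lemma g_apply (k : ℕ) (x : L2) : g k x = av k x - x (k + 1) := rfl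

lemma g_le (k : ℕ) (x : L2) : |g k x| ≤ 2 * ‖x‖ := by
  rw [g_apply]
  linarith [abs_sub (av k x) (x (k + 1)), av_le k x, le2 x (k + 1)]

noncomputable def lam (k : ℕ) : ℝ := (1 / 16) ^ (k + 1)

lemma lam_pos (k : ℕ) : 0 < lam k := by unfold lam; positivity

lemma lam_sum (i : ℕ) : HasSum (fun k => lam (k + (i + 1))) (lam i / 15) := by
  have := (hasSum_geometric_of_lt_one (r := 1 / 16) (by norm_num) (by norm_num)).mul_left
    (lam i / 16)
  rw [show lam i / 16 * (1 - 1 / 16)⁻¹ = lam i / 15 by ring] at this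
  exact this.congr_fun fun k => by unfold lam; ring

lemma lam_sum0 : HasSum lam (1 / 15) := by
  have := (hasSum_geometric_of_lt_one (r := 1 / 16) (by norm_num) (by norm_num)).mul_left
    (1 / 16 : ℝ)
  rw [show (1 / 16 : ℝ) * (1 - 1 / 16)⁻¹ = 1 / 15 by norm_num] at this
  exact this.congr_fun fun k => by unfold lam; ring

lemma w_sq (k : ℕ) : ((1 / 4 : ℝ) ^ (k + 1)) ^ 2 = lam k := by
  rw [lam, ← pow_mul, mul_comm, pow_mul]
  norm_num

lemma gsq (k : ℕ) (x : L2) : ((1 / 4 : ℝ) ^ (k + 1) * g k x) ^ 2 ≤ 4 * ‖x‖ ^ 2 * lam k := by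
  rw [mul_pow, w_sq, mul_comm]
  refine mul_le_mul_of_nonneg_right ?_ (lam_pos k).le
  have h := sq_le_sq' (abs_le.1 (g_le k x)).1 (abs_le.1 (g_le k x)).2
  linarith

noncomputable def T0 (x : L2) : L2 := mk2 (fun k => (1 / 4) ^ (k + 1) * g k x)
  (Summable.of_nonneg_of_le (fun _ => sq_nonneg _) (fun k => gsq k x)
    (lam_sum0.summable.mul_left _))

lemma T0_apply (x : L2) (k : ℕ) : T0 x k = (1 / 4) ^ (k + 1) * g k x := rfl

lemma T0_le (x : L2) : ‖T0 x‖ ≤ 1 * ‖x‖ := by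
  rw [one_mul]
  refine le_of_pow_le_pow_left₀ (n := 2) (by norm_num) (norm_nonneg _) ?_
  have := hasSum_le (fun k => (T0_apply x k).symm ▸ gsq k x) (n2 (T0 x))
    (lam_sum0.mul_left (4 * ‖x‖ ^ 2))
  exact this.trans (by nlinarith [sq_nonneg ‖x‖])

noncomputable def T : L2 →L[ℝ] L2 :=
  LinearMap.mkContinuous
    ⟨⟨T0, fun x y => ext2 fun k => by rw [add2, T0_apply, T0_apply, T0_apply, map_add]; ring⟩,
      fun c x => ext2 fun k => by
        simp only [T0_apply, smul2, map_smul, smul_eq_mul, RingHom.id_apply]; ring⟩ 1 T0_le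

lemma T_apply (x : L2) (k : ℕ) : T x k = (1 / 4) ^ (k + 1) * g k x := rfl

lemma T_le (x : L2) : ‖T x‖ ≤ ‖x‖ :=
  (T.le_opNorm x).trans (mul_le_of_le_one_left (norm_nonneg _)
    (LinearMap.mkContinuous_norm_le _ zero_le_one _))

lemma T_in (x y : L2) : HasSum (fun k => lam k * (g k x * g k y)) (inner ℝ (T x) (T y)) :=
  (hin (T x) (T y)).congr_fun fun k => by rw [T_apply, T_apply, ← w_sq]; ring

lemma g_e (k j : ℕ) :
    g k (e j) = (if j ≤ k then 1 / ((k : ℝ) + 1) else 0) - if k + 1 = j then 1 else 0 := by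
  rw [g_apply, av_apply, e_apply]
  congr 1
  simp only [e_apply, Finset.sum_ite_eq', Finset.mem_range, Nat.lt_succ_iff]
  split_ifs <;> simp

lemma G_est (y : L2) (i : ℕ) :
    |inner ℝ (T y) (T (e (i + 1))) + lam i * g i y| ≤ 2 * ‖y‖ * (lam i / 15) / (i + 1) := by
  have h := (hasSum_nat_add_iff' (i + 1)).2 (T_in y (e (i + 1)))
  rw [Finset.sum_eq_single i (fun k hk hki => by
      rw [g_e, if_neg (by have := Finset.mem_range.1 hk; omega), if_neg (by omega)]; simp)
    (fun h => absurd (Finset.mem_range.2 (by omega)) h), g_e, if_neg (by omega), if_pos rfl] at h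
  have e1 : inner ℝ (T y) (T (e (i + 1))) + lam i * g i y =
      inner ℝ (T y) (T (e (i + 1))) - lam i * (g i y * (0 - 1)) := by ring
  rw [e1, ← h.tsum_eq, ← Real.norm_eq_abs]
  refine tsum_of_norm_bounded (((lam_sum i).mul_left (2 * ‖y‖)).div_const _) fun k => ?_
  rw [g_e, if_pos (by omega), if_neg (by omega), sub_zero, Real.norm_eq_abs, abs_mul, abs_mul,
    abs_of_pos (lam_pos _), abs_of_pos (a := 1 / _) (by positivity)]
  have h1 : 1 / (((k + (i + 1) : ℕ) : ℝ) + 1) ≤ 1 / ((i : ℝ) + 1) :=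
    one_div_le_one_div_of_le (by positivity) (by push_cast; linarith [Nat.cast_nonneg (α := ℝ) k])
  calc _ ≤ lam (k + (i + 1)) * (2 * ‖y‖ * (1 / ((i : ℝ) + 1))) :=
        mul_le_mul_of_nonneg_left (mul_le_mul (g_le _ y) h1 (by positivity) (by positivity))
          (lam_pos _).le
    _ = _ := by ring

lemma G_le (y : L2) (i : ℕ) : |inner ℝ (T y) (T (e (i + 1)))| ≤ 3 * lam i * ‖y‖ := by
  have h1 := abs_le.1 (G_est y i)
  have h2 := abs_le.1 (g_le i y)
  have h3 := lam_pos i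
  have h4 : 2 * ‖y‖ * (lam i / 15) / (i + 1) ≤ 2 * ‖y‖ * (lam i / 15) :=
    div_le_self (by positivity) (by linarith [Nat.cast_nonneg (α := ℝ) i])
  have h5 := mul_nonneg h3.le (norm_nonneg y)
  rw [abs_le]
  constructor <;> nlinarith [mul_le_mul_of_nonneg_left h2.1 h3.le,
    mul_le_mul_of_nonneg_left h2.2 h3.le]

noncomputable def Hf (x y : L2) : ℝ := inner ℝ x y + inner ℝ (T x) (T y)

lemma Hf_le (x y : L2) : |Hf x y| ≤ 2 * (‖x‖ * ‖y‖) := by
  have h1 := abs_real_inner_le_norm x y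
  have h2 := (abs_real_inner_le_norm (T x) (T y)).trans
    (mul_le_mul (T_le x) (T_le y) (norm_nonneg _) (norm_nonneg _))
  have := abs_add_le (inner ℝ x y) (inner ℝ (T x) (T y))
  unfold Hf
  linarith

lemma Hf_self (x : L2) : Hf x x = ‖x‖ ^ 2 + ‖T x‖ ^ 2 := by
  rw [Hf, real_inner_self_eq_norm_sq, real_inner_self_eq_norm_sq]

noncomputable def Phi : L2 →ₗ[ℝ] WithLp 2 (L4 × WithLp 2 (L2 × L2)) where
  toFun x := WithLp.toLp 2 (io x, WithLp.toLp 2 (x, T x))
  map_add' x y := by rw [map_add, map_add]; rfl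
  map_smul' c x := by rw [map_smul, map_smul]; rfl

noncomputable def nn (x : L2) : ℝ := ‖Phi x‖

lemma nn_sq (x : L2) : nn x ^ 2 = ‖io x‖ ^ 2 + Hf x x := by
  rw [nn, WithLp.prod_norm_sq_eq_of_L2, WithLp.prod_norm_sq_eq_of_L2, Hf_self]
  rfl

noncomputable def q (a b c d : L2) : ℝ := ∑' k, a k * b k * c k * d k

lemma qs (a b c d : L2) : HasSum (fun k => a k * b k * c k * d k) (q a b c d) := by
  refine Summable.hasSum (Summable.of_norm_bounded
    ((((n2 c).add (n2 d)).summable).mul_left (‖a‖ * ‖b‖)) fun k => ?_)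
  rw [mul_assoc, Real.norm_eq_abs, abs_mul, abs_mul, abs_mul]
  refine mul_le_mul (mul_le_mul (le2 a k) (le2 b k) (abs_nonneg _) (norm_nonneg _)) ?_
    (by positivity) (by positivity)
  nlinarith [sq_nonneg (|c k| - |d k|), sq_abs (c k), sq_abs (d k), abs_nonneg (c k),
    abs_nonneg (d k)]

end Pool.Agent.H.MP_90e313_an
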