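import Pool.Agent.H.MP_90e313_an.A

set_option autoImplicit false

namespace Pool.Agent.H.MP_90e313_an

open Set Filter Topology

lemma lin0 {a b c d : ℝ} (h : ∀ t : ℝ, 0 ≤ a * t + b * t ^ 2 + c * t ^ 3 + d * t ^ 4) : a = 0 := by
  have h1 : HasDerivAt (fun t : ℝ => a * t + b * t ^ 2 + c * t ^ 3 + d * t ^ 4) a 0 :=
    (((((hasDerivAt_id' (0 : ℝ)).const_mul a).fun_add ((hasDerivAt_pow 2 (0 : ℝ)).const_mul b)).fun_add
      ((hasDerivAt_pow 3 (0 : ℝ)).const_mul c)).fun_add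
      ((hasDerivAt_pow 4 (0 : ℝ)).const_mul d)).congr_deriv (by norm_num)
  exact IsLocalMin.hasDerivAt_eq_zero (Eventually.of_forall fun t => by simpa using h t) h1

lemma Hf_comm (x y : L2) : Hf x y = Hf y x := by
  rw [Hf, Hf, real_inner_comm x y, real_inner_comm (T x)]

lemma Hf_lin (x y z : L2) (s : ℝ) : Hf (x + s • y) z = Hf x z + s * Hf y z := by
  simp only [Hf, map_add, map_smul, inner_add_left, real_inner_smul_left]
  ring

lemma Hf_sub (x y z : L2) : Hf x (y - z) = Hf x y - Hf x z := by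
  simp only [Hf, map_sub, inner_sub_right]
  ring

lemma Hf_smul (x y : L2) (s : ℝ) : Hf x (s • y) = s * Hf x y := by
  simp only [Hf, map_smul, real_inner_smul_right]
  ring

lemma ap (y z : L2) (t : ℝ) (k : ℕ) : (y + t • z) k = y k + t * z k := rfl

lemma q_self (y : L2) : q y y y y = ‖io y‖ ^ 4 :=
  (qs y y y y).unique ((q4 y).congr_fun fun k => by ring)

lemma orth {y z : L2} (hm : ∀ t : ℝ, nn y ≤ nn (y + t • z)) :
    q y y y z + ‖io y‖ ^ 2 * Hf y z = 0 := by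
  by_cases hy : y = 0
  · simp [hy, q, zero2]
  have hφ : 0 < ‖io y‖ ^ 2 := pow_pos (norm_pos_iff.2 fun h => hy (io_inj h)) 2
  have := lin0 (a := 4 * q y y y z + 4 * (‖io y‖ ^ 2 * Hf y z))
    (b := 6 * q y y z z + 2 * (‖io y‖ ^ 2 * Hf z z)) (c := 4 * q y z z z) (d := q z z z z)
    fun t => by
      have h1 : ‖io (y + t • z)‖ ^ 4 = ‖io y‖ ^ 4 + 4 * t * q y y y z + 6 * t ^ 2 * q y y z z +
          4 * t ^ 3 * q y z z z + t ^ 4 * q z z z z :=
        (q4 (y + t • z)).unique ((((((q4 y).add ((qs y y y z).mul_left (4 * t))).add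
          ((qs y y z z).mul_left (6 * t ^ 2))).add ((qs y z z z).mul_left (4 * t ^ 3))).add
          ((qs z z z z).mul_left (t ^ 4))).congr_fun fun k => by rw [ap]; ring)
      have h2 : Hf (y + t • z) (y + t • z) = Hf y y + 2 * t * Hf y z + t ^ 2 * Hf z z := by
        rw [Hf_lin, Hf_comm y, Hf_comm z, Hf_lin, Hf_lin, Hf_comm z y]
        ring
      have h3 := pow_le_pow_left₀ (norm_nonneg _) (hm t) 2
      have h4 := nn_sq y
      have h5 := nn_sq (y + t • z)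
      unfold nn at h4 h5
      have h6 := sq_nonneg (‖io (y + t • z)‖ ^ 2 - ‖io y‖ ^ 2)
      have h7 : 0 ≤ ‖io (y + t • z)‖ ^ 2 - ‖io y‖ ^ 2 + 2 * t * Hf y z + t ^ 2 * Hf z z := by
        unfold nn at h3
        linarith
      have h8 := mul_nonneg hφ.le h7
      nlinarith
  linarith

noncomputable def al (y0 y1 : L2) (s : ℝ) : ℝ := ‖io (y0 + s • y1)‖ ^ 2

noncomputable def cA (y0 y1 : L2) : ℝ :=
  al y0 y1 2 + al y0 y1 (-2) - 4 * (al y0 y1 1 + al y0 y1 (-1)) + 6 * al y0 y1 0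

noncomputable def cB (y0 y1 : L2) : ℝ :=
  2 * (al y0 y1 2 - al y0 y1 (-2)) - 4 * (al y0 y1 1 - al y0 y1 (-1))

lemma sep {y0 y1 z : L2} (h : ∀ s : ℝ, q (y0 + s • y1) (y0 + s • y1) (y0 + s • y1) z +
    ‖io (y0 + s • y1)‖ ^ 2 * Hf (y0 + s • y1) z = 0) :
    Hf y0 z * cA y0 y1 + Hf y1 z * cB y0 y1 = 0 := by
  have k := fun s : ℝ => qs (y0 + s • y1) (y0 + s • y1) (y0 + s • y1) z
  have h1 := (((((k 2).add (k (-2))).sub (((k 1).add (k (-1))).mul_left 4)).add
    ((k 0).mul_left 6)).congr_fun (g := fun _ => 0) fun j => by simp only [ap]; ring).unique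
    hasSum_zero
  have a1 := h 2
  have a2 := h (-2)
  have a3 := h 1
  have a4 := h (-1)
  have a5 := h 0
  rw [Hf_lin] at a1 a2 a3 a4 a5
  unfold cA cB al
  linear_combination a1 + a2 - 4 * a3 - 4 * a4 + 6 * a5 - h1

def U : Set (L2 × L2) := {y | |cB y.1 y.2| < cA y.1 y.2 ∧ |cB y.2 y.1| < cA y.2 y.1}

lemma lt_open {f g : L2 × L2 → L2} (hf : Continuous f) (hg : Continuous g) :
    IsOpen {y | |cB (f y) (g y)| < cA (f y) (g y)} := by
  have h : ∀ s : ℝ, Continuous fun y : L2 × L2 => al (f y) (g y) s := fun s =>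
    (io.continuous.comp (hf.add (hg.const_smul s))).norm.pow 2
  refine isOpen_lt (Continuous.abs ?_) ?_
  · exact (continuous_const.mul ((h 2).sub (h (-2)))).sub
      (continuous_const.mul ((h 1).sub (h (-1))))
  · exact (((h 2).add (h (-2))).sub (continuous_const.mul ((h 1).add (h (-1))))).add
      (continuous_const.mul (h 0))

lemma U_open : IsOpen U :=
  (lt_open continuous_fst continuous_snd).inter (lt_open continuous_snd continuous_fst)

lemma al_e {i j : ℕ} (h : i ≠ j) (s : ℝ) : al (e i) (e j) s = √(1 + s ^ 4) := by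
  have h0 : HasSum (fun k => (e i + s • e j) k ^ 4) (1 + s ^ 4) := by
    refine ((hasSum_ite_eq i (1 : ℝ)).add (hasSum_ite_eq j (s ^ 4))).congr_fun fun k => ?_
    rw [ap, e_apply, e_apply]
    by_cases h1 : k = i
    · rw [if_pos h1, if_neg (fun h2 => h (h1.symm.trans h2)), if_neg (fun h2 => h (h1.symm.trans h2))]
      ring
    · rw [if_neg h1]
      split_ifs <;> ring
  have h1 : ‖io (e i + s • e j)‖ ^ 4 = 1 + s ^ 4 := (q4 (e i + s • e j)).unique h0
  rw [← h1, al, show ‖io (e i + s • e j)‖ ^ 4 = (‖io (e i + s • e j)‖ ^ 2) ^ 2 by ring,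
    Real.sqrt_sq (sq_nonneg _)]

lemma cAB_e {i j : ℕ} (h : i ≠ j) : |cB (e i) (e j)| < cA (e i) (e j) := by
  simp only [cA, cB, al_e h]
  have h1 : (4 : ℝ) < √17 := Real.lt_sqrt_of_sq_lt (by norm_num)
  have h2 : √2 < (3 / 2 : ℝ) := (Real.sqrt_lt' (by norm_num)).2 (by norm_num)
  norm_num
  linarith

lemma U_e : (e 0, e 1) ∈ U := ⟨cAB_e (by norm_num), cAB_e (by norm_num)⟩

variable {P : L2 →L[ℝ] L2}

lemma F0 (hn : ∀ x, nn (P x) ≤ nn x) {y z : L2} (hy : P y = y)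
    (hz : P z = 0) : q y y y z + ‖io y‖ ^ 2 * Hf y z = 0 :=
  orth fun t => by
    have := hn (y + t • z)
    rwa [map_add, map_smul, hy, hz, smul_zero, add_zero] at this

lemma F1a (hn : ∀ x, nn (P x) ≤ nn x) {y0 y1 z : L2} (h0 : P y0 = y0)
    (h1 : P y1 = y1) (hz : P z = 0) (hU : (y0, y1) ∈ U) : Hf y0 z = 0 := by
  have a1 := sep (y0 := y0) (y1 := y1) fun s =>
    F0 hn (by rw [map_add, map_smul, h0, h1]) hz
  have a2 := sep (y0 := y1) (y1 := y0) fun s =>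
    F0 hn (by rw [map_add, map_smul, h0, h1]) hz
  obtain ⟨b1, b2⟩ := hU
  dsimp only at b1 b2
  by_contra hne
  have c0 := abs_pos.2 hne
  have c1 := congrArg abs (eq_neg_of_add_eq_zero_left a1)
  have c2 := congrArg abs (eq_neg_of_add_eq_zero_left a2)
  rw [abs_neg, abs_mul, abs_mul, abs_of_pos ((abs_nonneg _).trans_lt b1)] at c1
  rw [abs_neg, abs_mul, abs_mul, abs_of_pos ((abs_nonneg _).trans_lt b2)] at c2
  have d1 : |Hf y0 z| ≤ |Hf y1 z| := by
    by_contra hc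
    push Not at hc
    nlinarith [abs_nonneg (Hf y1 z), abs_nonneg (cB y0 y1)]
  nlinarith [abs_nonneg (cB y1 y0)]

lemma F1 (hP : ∀ x, P (P x) = P x) (hn : ∀ x, nn (P x) ≤ nn x) (hU : (P (e 0), P (e 1)) ∈ U)
    {y z : L2} (hy : P y = y) (hz : P z = 0) : Hf y z = 0 := by
  have hc : Continuous fun s : ℝ => (P (e 0) + s • y, P (e 1)) := by fun_prop
  have h1 : ∀ᶠ s : ℝ in 𝓝[≠] 0, (P (e 0) + s • y, P (e 1)) ∈ U :=
    nhdsWithin_le_nhds (hc.continuousAt.eventually (U_open.mem_nhds (by simpa using hU)))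
  obtain ⟨s, hs, hs0⟩ := (h1.and self_mem_nhdsWithin).exists
  have a1 := F1a hn (hP _) (hP _) hz hU
  have a2 := F1a hn (by rw [map_add, map_smul, hP, hy]) (hP _) hz hs
  rw [Hf_lin, a1, zero_add] at a2
  exact (mul_eq_zero.1 a2).resolve_left hs0

structure Good (P : L2 →L[ℝ] L2) : Prop where
  idem : ∀ x, P (P x) = P x
  f1 : ∀ y x, P y = y → Hf y x = Hf y (P x)
  f2 : ∀ y y' j, P y = y → P y' = y' → y j * y j * y' j = q y y y' (P (e j))

lemma good (hP : ∀ x, P (P x) = P x) (hn : ∀ x, nn (P x) ≤ nn x)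
    (hU : (P (e 0), P (e 1)) ∈ U) : Good P := by
  have hz : ∀ x, P (x - P x) = 0 := fun x => by rw [map_sub, hP, sub_self]
  refine ⟨hP, fun y x hy => ?_, fun y y' j hy hy' => ?_⟩
  · have := F1 hP hn hU hy (hz x)
    rwa [Hf_sub, sub_eq_zero] at this
  · set z := e j - P (e j) with hzd
    have h1 : ∀ w, P w = w → q w w w z = 0 := fun w hw => by
      have := F0 hn hw (hz (e j))
      rwa [F1 hP hn hU hw (hz (e j)), mul_zero, add_zero] at this
    have k := fun s : ℝ => qs (y + s • y') (y + s • y') (y + s • y') z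
    have k' := fun s : ℝ => h1 (y + s • y') (by rw [map_add, map_smul, hy, hy'])
    have h2 : q y y y' z = 0 := by
      have a1 := k 1
      have a2 := k (-1)
      have a3 := qs y' y' y' z
      rw [k'] at a1 a2
      rw [h1 y' hy'] at a3
      have := ((a1.sub a2).sub (a3.mul_left 2)).div_const 6
      simp only [sub_zero, mul_zero, zero_div] at this
      exact (qs y y y' z).unique (this.congr_fun fun l => by simp only [ap]; ring)
    have h3 := (qs y y y' z).add (qs y y y' (P (e j)))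
    rw [h2, zero_add] at h3
    refine (hasSum_single (f := fun l => y l * y l * y' l * e j l) j fun l hl => by
      rw [e_apply, if_neg hl, mul_zero]).unique (h3.congr_fun fun l => by
        rw [hzd, sub2]; ring) |>.symm.trans ?_ |>.symm
    rw [e_apply, if_pos rfl, mul_one]

namespace Good

variable (h : Good P)
include h

lemma cube (i j : ℕ) : P (e i) j ^ 3 = q (P (e i)) (P (e i)) (P (e i)) (P (e j)) := by
  rw [← h.f2 _ _ j (h.idem _) (h.idem _)]
  ring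

lemma diag (j : ℕ) : P (e j) j ^ 3 = ‖io (P (e j))‖ ^ 4 := by rw [h.cube, q_self]

lemma disj {y : L2} (hy : P y = y) {l : ℕ} (hl : y l = 0) (k : ℕ) : y k * P (e l) k = 0 := by
  have h1 := h.f2 y (P (e l)) l hy (h.idem _)
  have h2 := qs y y (P (e l)) (P (e l))
  rw [← h1, hl, zero_mul, zero_mul] at h2
  have h3 := (hasSum_zero_iff_of_nonneg (fun k => by
    show (0 : ℝ) ≤ y k * y k * P (e l) k * P (e l) k
    nlinarith [sq_nonneg (y k * P (e l) k)])).1 h2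
  have h4 : y k * y k * P (e l) k * P (e l) k = 0 := congrFun h3 k
  exact pow_eq_zero_iff two_ne_zero |>.1 (by rw [← h4]; ring)

lemma diag_ne {j : ℕ} (hj : P (e j) ≠ 0) : P (e j) j ≠ 0 := fun h0 => by
  have := h.diag j
  rw [h0, zero_pow (by norm_num)] at this
  exact hj (io_inj (norm_eq_zero.1 (pow_eq_zero_iff (by norm_num) |>.1 this.symm)))

lemma par {i l : ℕ} (hc : P (e i) l ≠ 0) : ∃ t : ℝ, P (e l) = t • P (e i) := by
  have hi : P (e i) i ≠ 0 := h.diag_ne fun h0 => hc (by rw [h0, zero2])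
  have hl : P (e l) l ≠ 0 := h.diag_ne fun h0 => hc (by
    have := h.cube i l
    rw [h0] at this
    simp only [q, zero2, mul_zero, tsum_zero] at this
    exact pow_eq_zero_iff (by norm_num) |>.1 this)
  have h1 := h.disj (y := P (e i) + (-(P (e i) l / P (e l) l)) • P (e l))
    (by rw [map_add, map_smul, h.idem, h.idem]) (l := l) (by rw [ap]; field_simp; ring)
  have h2 := h.disj (y := P (e l) + (-(P (e l) i / P (e i) i)) • P (e i))
    (by rw [map_add, map_smul, h.idem, h.idem]) (l := i) (by rw [ap]; field_simp; ring)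
  refine ⟨P (e l) i / P (e i) i, ext2 fun k => ?_⟩
  have a1 := h1 k
  have a2 := h2 k
  rw [ap] at a1 a2
  rw [smul2]
  by_cases hk : P (e i) k = 0
  · rw [hk, mul_zero]
    rw [hk, zero_add] at a1
    by_contra hne
    exact mul_ne_zero (mul_ne_zero (neg_ne_zero.2 (div_ne_zero hc hl)) hne) hne a1
  · linarith [(mul_eq_zero.1 a2).resolve_right hk]

lemma f1e {y : L2} (hy : P y = y) (j : ℕ) :
    y j + inner ℝ (T y) (T (e j)) = Hf y (P (e j)) := by
  rw [← h.f1 y (e j) hy, Hf, in_e]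

lemma small {i l : ℕ} (hli : l + 1 ≠ i)
    (hc : 2 * (‖P (e i) - e i‖ ^ 2 * Hf (P (e i)) (P (e i))) < ‖io (P (e i))‖ ^ 4) :
    |P (e i) (l + 1)| ≤ 6 * lam l * ‖P (e i)‖ := by
  have hl := lam_pos l
  by_cases h0 : P (e i) (l + 1) = 0
  · rw [h0, abs_zero]
    positivity
  obtain ⟨t, ht⟩ := h.par h0
  set p := P (e i) with hp
  set c := p (l + 1) with hcd
  have a1 : c ^ 3 = t * ‖io p‖ ^ 4 := by
    rw [hcd, hp, h.cube, ht, ← hp]
    exact (qs p p p (t • p)).unique (((q4 p).mul_left t).congr_fun fun k => by rw [smul2]; ring)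
  have a2 := h.f1e (h.idem (e i)) (l + 1)
  rw [ht, Hf_smul, ← hp, ← hcd] at a2
  have a3 := G_le p l
  have a4 : |c| ≤ ‖p - e i‖ := by
    have := le2 (p - e i) (l + 1)
    rwa [sub2, e_apply, if_neg hli, sub_zero] at this
  have a5 : 0 ≤ Hf p p := by rw [Hf_self]; positivity
  have a6 : c ^ 2 ≤ ‖p - e i‖ ^ 2 := sq_le_sq' (abs_le.1 a4).1 (abs_le.1 a4).2
  have a7 : 2 * (c ^ 2 * Hf p p) < ‖io p‖ ^ 4 := by
    nlinarith [mul_le_mul_of_nonneg_right a6 a5]
  have hQ : 0 < ‖io p‖ ^ 4 := lt_of_le_of_lt (by positivity) a7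
  have a8 : |t * Hf p p| ≤ |c| / 2 := by
    refine le_of_mul_le_mul_right ?_ hQ
    have : |t * Hf p p| * ‖io p‖ ^ 4 = |c| * (c ^ 2 * Hf p p) := by
      rw [← abs_of_pos hQ, ← abs_mul, show t * Hf p p * ‖io p‖ ^ 4 = t * ‖io p‖ ^ 4 * Hf p p by ring,
        ← a1, show c ^ 3 * Hf p p = c * (c ^ 2 * Hf p p) by ring, abs_mul,
        abs_of_nonneg (a := c ^ 2 * Hf p p) (by positivity)]
    rw [this]
    nlinarith [abs_nonneg c]
  have a9 := abs_sub (t * Hf p p) (inner ℝ (T p) (T (e (l + 1))))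
  rw [← a2, add_sub_cancel_right, a2] at a9
  linarith

lemma Slow {i : ℕ} (hi : i ≤ 1) (hb : ‖P (e i) - e i‖ ≤ 1 / 20)
    (hc : 2 * (‖P (e i) - e i‖ ^ 2 * Hf (P (e i)) (P (e i))) < ‖io (P (e i))‖ ^ 4) (j : ℕ) :
    2 / 5 ≤ ∑ l ∈ Finset.range (j + 2), P (e i) l := by
  have hn : ‖P (e i)‖ ≤ 21 / 20 := by
    have := norm_le_norm_add_norm_sub' (P (e i)) (e i)
    rw [e_norm] at this
    linarith
  have a0 := abs_le.1 ((le2 (P (e i) - e i) 0).trans hb)
  have a1 := abs_le.1 ((le2 (P (e i) - e i) 1).trans hb)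
  rw [sub2, e_apply] at a0 a1
  have a2 : 9 / 10 ≤ P (e i) 0 + P (e i) 1 := by
    interval_cases i <;> simp only [reduceIte, one_ne_zero, zero_ne_one] at a0 a1 <;>
      linarith [a0.1, a1.1]
  have a3 : ∑ l ∈ Finset.range j, -(P (e i) (l + 1 + 1)) ≤
      ∑ l ∈ Finset.range j, 63 / 10 * lam (l + (0 + 1)) := Finset.sum_le_sum fun l _ => by
    have := (abs_le.1 (h.small (l := l + 1) (by omega) hc)).1
    have := lam_pos (l + 1)
    rw [zero_add]
    nlinarith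
  have a4 := sum_le_hasSum (Finset.range j) (fun l _ => (lam_pos _).le) (lam_sum 0)
  rw [← Finset.mul_sum, Finset.sum_neg_distrib] at a3
  rw [Finset.sum_range_succ', Finset.sum_range_succ', zero_add]
  have a5 : lam 0 = 1 / 16 := by simp [lam]
  linarith

end Good

theorem core (h : Good P) (hfd : FiniteDimensional ℝ P.range)
    (h0 : Tendsto (fun j => P (e j)) atTop (𝓝 0)) (hb : ∀ i, i ≤ 1 → ‖P (e i) - e i‖ ≤ 1 / 20)
    (hc : ∀ i, i ≤ 1 →
      2 * (‖P (e i) - e i‖ ^ 2 * Hf (P (e i)) (P (e i))) < ‖io (P (e i))‖ ^ 4) : False := by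
  obtain ⟨K, hK, hA⟩ := (io.toLinearMap ∘ₗ P.range.subtype).exists_antilipschitzWith
    (LinearMap.ker_eq_bot'.2 fun y hy => Subtype.ext (io_inj hy))
  have hK' : ∀ j, ‖P (e j)‖ ≤ K * ‖io (P (e j))‖ := fun j =>
    ZeroHomClass.bound_of_antilipschitz _ hA ⟨P (e j), e j, rfl⟩
  have hK0 : (0 : ℝ) < K := hK
  have e1 : ∀ᶠ j in atTop, 64 * (K : ℝ) ^ 4 * ‖P (e (j + 1))‖ ^ 2 < 1 := by
    have := (((h0.comp (tendsto_add_atTop_nat 1)).norm.pow 2).const_mul (64 * (K : ℝ) ^ 4))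
    exact this.eventually (gt_mem_nhds (by simp))
  have e2 : ∀ᶠ j : ℕ in atTop, 5000 * (K : ℝ) ^ 4 * (((j : ℝ) + 1) * lam j) < 1 := by
    have h1 := (tendsto_self_mul_const_pow_of_lt_one (r := 1 / 16) (by norm_num) (by norm_num)).comp
      (tendsto_add_atTop_nat 1)
    have h2 := h1.const_mul (5000 * (K : ℝ) ^ 4)
    refine (h2.eventually (gt_mem_nhds (show _ < (1 : ℝ) by simp))).mono fun j hj => ?_
    simpa [lam] using hj
  obtain ⟨j, ⟨b1, b2⟩, b3⟩ := ((e1.and e2).and (eventually_ge_atTop 1)).exists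
  obtain ⟨j, rfl⟩ := Nat.exists_eq_add_of_le' b3
  set p := P (e (j + 1 + 1)) with hp
  have hl := lam_pos (j + 1)
  have hl1 : lam (j + 1) ≤ 1 := pow_le_one₀ (by norm_num) (by norm_num)
  set μ := lam (j + 1) with hμ
  have c1 : ‖p‖ ≤ 216 * K ^ 4 * μ ^ 3 := by
    have a1 := h.f1e (h.idem (e (j + 1 + 1))) (j + 1 + 1)
    have a2 := (abs_le.1 (G_le p (j + 1))).1
    have a3 := (abs_le.1 (Hf_le p p)).2
    have a4 := h.diag (j + 1 + 1)
    rw [← hp] at a1 a4
    have a5 := pow_le_pow_left₀ (norm_nonneg _) (hK' (j + 1 + 1)) 4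
    rw [← hp, mul_pow, ← a4] at a5
    have a6 : p (j + 1 + 1) ≤ ‖p‖ * (2 * ‖p‖ + 3 * μ) := by nlinarith
    have a7 : p (j + 1 + 1) ^ 3 ≤ (‖p‖ * (2 * ‖p‖ + 3 * μ)) ^ 3 :=
      (Odd.strictMono_pow (by decide)).monotone a6
    have a8 : (2 * ‖p‖ + 3 * μ) ^ 3 ≤ 4 * ((2 * ‖p‖) ^ 3 + (3 * μ) ^ 3) := by
      have := mul_nonneg (show 0 ≤ 2 * ‖p‖ + 3 * μ by positivity) (sq_nonneg (2 * ‖p‖ - 3 * μ))
      nlinarith
    rcases (norm_nonneg p).eq_or_lt with h0 | h0
    · rw [← h0]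
      positivity
    have a9 : ‖p‖ ^ 3 * ‖p‖ ≤ ‖p‖ ^ 3 * (K ^ 4 * (4 * ((2 * ‖p‖) ^ 3 + (3 * μ) ^ 3))) := by
      have b1 := mul_le_mul_of_nonneg_left a8 (show 0 ≤ ‖p‖ ^ 3 by positivity)
      rw [mul_pow] at a7
      have b2 := mul_le_mul_of_nonneg_left (a7.trans b1) (show (0 : ℝ) ≤ K ^ 4 by positivity)
      linarith
    have a10 := le_of_mul_le_mul_left a9 (by positivity)
    nlinarith
  obtain ⟨i, hi, hz⟩ : ∃ i, i ≤ 1 ∧ P (e i) (j + 1 + 1) = 0 := by
    by_contra hne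
    push Not at hne
    obtain ⟨t0, ht0⟩ := h.par (hne 0 zero_le_one)
    obtain ⟨t1, ht1⟩ := h.par (hne 1 le_rfl)
    have d0 := congrArg (fun x : L2 => x 0) (ht0.symm.trans ht1)
    have d1 := congrArg (fun x : L2 => x 1) (ht0.symm.trans ht1)
    simp only [smul2] at d0 d1
    have f00 := abs_le.1 ((le2 (P (e 0) - e 0) 0).trans (hb 0 zero_le_one))
    have f01 := abs_le.1 ((le2 (P (e 0) - e 0) 1).trans (hb 0 zero_le_one))
    have f10 := abs_le.1 ((le2 (P (e 1) - e 1) 0).trans (hb 1 le_rfl))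
    have f11 := abs_le.1 ((le2 (P (e 1) - e 1) 1).trans (hb 1 le_rfl))
    simp only [sub2, e_apply, reduceIte, one_ne_zero, zero_ne_one, sub_zero] at f00 f01 f10 f11
    have hdet : P (e 0) 0 * P (e 1) 1 - P (e 0) 1 * P (e 1) 0 ≠ 0 := by
      nlinarith [f00.1, f00.2, f01.1, f01.2, f10.1, f10.2, f11.1, f11.2]
    have ht : t0 = 0 := (mul_eq_zero.1 (show t0 * (P (e 0) 0 * P (e 1) 1 - P (e 0) 1 * P (e 1) 0)
      = 0 by linear_combination P (e 1) 1 * d0 - P (e 1) 0 * d1)).resolve_right hdet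
    have := h.cube 0 (j + 1 + 1)
    rw [ht0, ht, zero_smul] at this
    simp only [q, zero2, mul_zero, tsum_zero] at this
    exact hne 0 zero_le_one (pow_eq_zero_iff (by norm_num) |>.1 this)
  set y := P (e i) with hy
  have hn : ‖y‖ ≤ 21 / 20 := by
    have := norm_le_norm_add_norm_sub' y (e i)
    rw [e_norm] at this
    linarith [hb i hi]
  have g1 := h.f1e (h.idem (e i)) (j + 1 + 1)
  rw [← hy, hz, zero_add, ← hp] at g1
  have g2 := (abs_le.1 (G_est y (j + 1))).2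
  have g3 := (abs_le.1 (Hf_le y p)).1
  have g4 := h.Slow hi (hb i hi) (hc i hi) j
  rw [g_apply, hz, sub_zero, av_apply, g1, ← hμ] at g2
  rw [← hy] at g4
  set N : ℝ := ((j + 1 : ℕ) : ℝ) + 1 with hN
  have hN0 : 0 < N := by positivity
  have g5 : μ * (2 / 5 / N) ≤ μ * ((∑ l ∈ Finset.range (j + 1 + 1), y l) / N) :=
    mul_le_mul_of_nonneg_left (div_le_div_of_nonneg_right g4 hN0.le) hl.le
  have g6 : 2 * ‖y‖ * (μ / 15) / N ≤ μ * (1 / 5 / N) := by
    rw [← mul_div_assoc μ]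
    refine div_le_div_of_nonneg_right ?_ hN0.le
    nlinarith
  have g7 : ‖y‖ * ‖p‖ ≤ 2 * (216 * K ^ 4 * μ ^ 3) :=
    mul_le_mul (by linarith) c1 (norm_nonneg _) (by norm_num)
  have g8 : μ * (1 / 5 / N) ≤ 864 * K ^ 4 * μ ^ 3 := by
    have : μ * (2 / 5 / N) = 2 * (μ * (1 / 5 / N)) := by ring
    linarith
  rw [← mul_div_assoc, div_le_iff₀ hN0] at g8
  have g9 : μ ^ 2 ≤ μ := by nlinarith
  have g10 : 0 ≤ (K : ℝ) ^ 4 * N * μ := by positivity
  have g11 := mul_le_mul_of_nonneg_left g9 g10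
  have g12 := mul_lt_mul_of_pos_left b2 hl
  nlinarith

end Pool.Agent.H.MP_90e313_an
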