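import Pool.Agent.H.MP_90e313_an.B

set_option autoImplicit false

namespace Pool.Agent.H.MP_90e313_an

open Set Filter Topology

lemma sum2 (s : Finset ℕ) (v : ℕ → L2) (k : ℕ) : (∑ j ∈ s, v j) k = ∑ j ∈ s, v j k :=
  map_sum (ev k) v s

noncomputable def R (a b : ℕ) (x : L2) : L2 := fin b fun l => if l ≤ a then av a x else x l

lemma R_apply (a b : ℕ) (x : L2) (l : ℕ) :
    R a b x l = if l < b then (if l ≤ a then av a x else x l) else 0 := rfl

lemma R_sum {a k b : ℕ} (h1 : a < k) (h2 : k ≤ b) (x : L2) (F : ℝ → ℝ) :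
    ∑ l ∈ Finset.range k, F (R a b x l) =
      (a + 1) * F (av a x) + ∑ l ∈ Finset.Ico (a + 1) k, F (x l) := by
  rw [← Finset.sum_range_add_sum_Ico _ (show a + 1 ≤ k from h1)]
  congr 1
  · rw [Finset.sum_congr rfl (g := fun _ => F (av a x)) fun l hl => by
      have := Finset.mem_range.1 hl
      rw [R_apply, if_pos (by omega), if_pos (by omega)]]
    simp
  · exact Finset.sum_congr rfl fun l hl => by
      have := Finset.mem_Ico.1 hl
      rw [R_apply, if_pos (by omega), if_neg (by omega)]

lemma R_pow {a b : ℕ} (h : a < b) (x : L2) {n : ℕ} (hn : Even n) (hn0 : n ≠ 0) {c d : ℝ}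
    (h1 : HasSum (fun l => R a b x l ^ n) c) (h2 : HasSum (fun l => x l ^ n) d) : c ≤ d := by
  have a1 := h1.unique (hasSum_sum_of_ne_finset_zero (s := Finset.range b) fun l hl => by
    rw [R_apply, if_neg (by simpa using hl), zero_pow hn0])
  have a2 := sum_le_hasSum (Finset.range b) (fun l _ => hn.pow_nonneg _) h2
  rw [a1, R_sum h le_rfl x fun t => t ^ n]
  rw [← Finset.sum_range_add_sum_Ico _ (show a + 1 ≤ b from h)] at a2
  have hp : (0 : ℝ) < a + 1 := by positivity
  have a3 := (hn.convexOn_pow (𝕜 := ℝ)).map_sum_le (t := Finset.range (a + 1))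
    (w := fun _ => ((a : ℝ) + 1)⁻¹) (p := fun l => x l) (fun _ _ => by positivity)
    (by simp [hp.ne']) fun _ _ => mem_univ _
  simp only [smul_eq_mul, ← Finset.mul_sum] at a3
  rw [← div_eq_inv_mul, ← av_apply, ← div_eq_inv_mul, le_div_iff₀' hp] at a3
  linarith

lemma av_R {a k b : ℕ} (h1 : a ≤ k) (h2 : k < b) (x : L2) : av k (R a b x) = av k x := by
  have := R_sum (k := k + 1) (Nat.lt_succ_of_le h1) h2 x fun t => t
  rw [av_apply, this, av_apply k,
    ← Finset.sum_range_add_sum_Ico _ (show a + 1 ≤ k + 1 by omega), av_apply,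
    mul_div_cancel₀ _ (by positivity)]

lemma g_R1 {a k b : ℕ} (h1 : a ≤ k) (h2 : k + 1 < b) (x : L2) : g k (R a b x) = g k x := by
  rw [g_apply, g_apply, av_R h1 (by omega), R_apply, if_pos h2, if_neg (by omega)]

lemma g_R0 {a k b : ℕ} (h1 : k < a) (h2 : a < b) (x : L2) : g k (R a b x) = 0 := by
  rw [g_apply, R_apply, if_pos (by omega), if_pos (by omega), av_apply,
    Finset.sum_congr rfl (g := fun _ => av a x) fun l hl => by
      have := Finset.mem_range.1 hl
      rw [R_apply, if_pos (by omega), if_pos (by omega)]]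
  have : (k : ℝ) + 1 ≠ 0 := by positivity
  simp [this]

lemma le_nn (x : L2) : ‖x‖ ≤ nn x := by
  refine le_of_pow_le_pow_left₀ two_ne_zero (norm_nonneg _) ?_
  have := nn_sq x
  rw [Hf_self] at this
  nlinarith [sq_nonneg ‖io x‖, sq_nonneg ‖T x‖]

lemma nn_R {a b K : ℕ} (h1 : a ≤ K) (h2 : K < b) (x : L2) :
    nn (R a b x) ≤ (1 + 2 * lam K * 4 ^ (K + 1)) * nn x := by
  have hab : a < b := by omega
  have a1 : ‖io (R a b x)‖ ≤ ‖io x‖ := le_of_pow_le_pow_left₀ (n := 4) (by norm_num)
    (norm_nonneg _) (R_pow hab x (by decide) (by norm_num) (q4 (R a b x)) (q4 x))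
  have a2 : ‖R a b x‖ ^ 2 ≤ ‖x‖ ^ 2 := R_pow hab x (by decide) (by norm_num) (n2 (R a b x)) (n2 x)
  have a3 := T_in (R a b x) (R a b x)
  have a4 := T_in x x
  rw [real_inner_self_eq_norm_sq] at a3 a4
  have a5 := (hasSum_nat_add_iff' K).2 a3
  have a6 : HasSum (fun k => lam (k + K)) (lam K + lam K / 15) := by
    have := (hasSum_nat_add_iff (f := fun k => lam (k + K)) 1).1
      ((lam_sum K).congr_fun fun k => by rw [add_assoc, add_comm 1 K])
    simpa [add_comm] using this
  have a7 := hasSum_le (fun k => by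
    have b1 := g_le (k + K) (R a b x)
    have b2 := sq_le_sq' (abs_le.1 b1).1 (abs_le.1 b1).2
    have b3 : g (k + K) (R a b x) * g (k + K) (R a b x) ≤ 4 * ‖x‖ ^ 2 := by nlinarith
    exact mul_le_mul_of_nonneg_left b3 (lam_pos _).le) a5 (a6.mul_right (4 * ‖x‖ ^ 2))
  have a8 : ∑ k ∈ Finset.range K, lam k * (g k (R a b x) * g k (R a b x)) ≤
      ∑ k ∈ Finset.range K, lam k * (g k x * g k x) := Finset.sum_le_sum fun k hk => by
    have := Finset.mem_range.1 hk
    refine mul_le_mul_of_nonneg_left ?_ (lam_pos _).le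
    rcases le_or_gt a k with h | h
    · rw [g_R1 h (by omega)]
    · rw [g_R0 h hab, mul_zero]
      exact mul_self_nonneg _
  have a9 := sum_le_hasSum (Finset.range K)
    (fun k _ => mul_nonneg (lam_pos k).le (mul_self_nonneg _)) a4
  have hl := lam_pos K
  have b0 := norm_nonneg (Phi x)
  refine le_of_pow_le_pow_left₀ two_ne_zero (mul_nonneg (by positivity) b0) ?_
  have b1 := nn_sq (R a b x)
  have b2 := nn_sq x
  rw [Hf_self] at b1 b2
  have b3 := pow_le_pow_left₀ (norm_nonneg _) a1 2
  have b4 := pow_le_pow_left₀ (norm_nonneg _) (le_nn x) 2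
  have b5 : (4 : ℝ) ≤ 4 ^ (K + 1) := le_self_pow₀ (by norm_num) (by omega)
  have b6 : 1 + 16 * lam K ≤ (1 + 2 * lam K * 4 ^ (K + 1)) ^ 2 := by
    nlinarith [mul_le_mul_of_nonneg_left b5 hl.le, sq_nonneg (2 * lam K * 4 ^ (K + 1))]
  have b7 := mul_le_mul_of_nonneg_right b6 (sq_nonneg (nn x))
  have b8 := mul_le_mul_of_nonneg_left b4 hl.le
  have b9 := mul_nonneg hl.le (sq_nonneg ‖x‖)
  rw [mul_pow]
  nlinarith

noncomputable def bv (K n : ℕ) : L2 :=
  if n = 0 then fin (K + 1) fun _ => 1 else if n ≤ K then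
    fin (K - n + 2) fun l => if l ≤ K - n then 1 else -(((K - n : ℕ) : ℝ) + 1) else e n

noncomputable def cf (K n : ℕ) : L2 →L[ℝ] ℝ :=
  if n = 0 then av K else if n ≤ K then (((K - n : ℕ) : ℝ) + 2)⁻¹ • g (K - n) else ev n

lemma av_succ (k : ℕ) (x : L2) :
    av (k + 1) x = (((k : ℝ) + 1) * av k x + x (k + 1)) / ((k : ℝ) + 2) := by
  rw [av_apply, av_apply, Finset.sum_range_succ, mul_div_cancel₀ _ (by positivity)]
  push_cast
  ring

lemma part (K n : ℕ) (x : L2) :
    ∑ i ∈ Finset.range (n + 1), cf K i x • bv K i = R (K - n) (max K n + 1) x := by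
  induction n with
  | zero =>
    refine ext2 fun l => ?_
    simp only [zero_add, Finset.range_one, Finset.sum_singleton, cf, bv, if_true, smul2, fin_apply,
      R_apply, tsub_zero, Nat.max_zero]
    split_ifs <;> first | omega | simp
  | succ n ih =>
    rw [Finset.sum_range_succ, ih]
    refine ext2 fun l => ?_
    rw [add2, smul2, R_apply, R_apply, cf, bv, if_neg (Nat.succ_ne_zero n),
      if_neg (Nat.succ_ne_zero n)]
    by_cases hn : n + 1 ≤ K
    · obtain ⟨k, rfl⟩ := Nat.exists_eq_add_of_le' hn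
      rw [if_pos hn, if_pos hn, Nat.add_sub_cancel, show k + (n + 1) - n = k + 1 by omega,
        max_eq_left (by omega), max_eq_left hn, fin_apply, _root_.smul_apply, g_apply, av_succ,
        smul_eq_mul]
      have : (k : ℝ) + 2 ≠ 0 := by positivity
      rcases lt_trichotomy l (k + 1) with h | rfl | h
      · rw [if_pos (by omega), if_pos (by omega), if_pos (by omega), if_pos (by omega),
          if_pos (by omega), if_pos (by omega)]
        field_simp
        ring
      · rw [if_pos (by omega), if_pos le_rfl, if_pos (by omega), if_neg (by omega),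
          if_pos (by omega), if_neg (by omega)]
        field_simp
        ring
      · rw [if_neg (show ¬ l ≤ k + 1 by omega), if_neg (show ¬ l < k + 2 by omega),
          if_neg (show ¬ l ≤ k by omega), mul_zero, add_zero]
    · rw [if_neg hn, if_neg hn, show K - n = 0 by omega, show K - (n + 1) = 0 by omega,
        max_eq_right (by omega), max_eq_right (by omega), ev_apply, e_apply]
      rcases lt_trichotomy l (n + 1) with h | rfl | h
      · rw [if_pos h, if_neg h.ne, if_pos (show l < n + 1 + 1 by omega), mul_zero, add_zero]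
      · rw [if_neg (lt_irrefl _), if_pos rfl, if_pos (by omega), if_neg (by omega), mul_one,
          zero_add]
      · rw [if_neg (by omega), if_neg h.ne', if_neg (by omega), mul_zero, add_zero]

lemma part_tend (K : ℕ) (x : L2) :
    Tendsto (fun n => ∑ i ∈ Finset.range n, cf K i x • bv K i) atTop (𝓝 x) := by
  rw [← tendsto_add_atTop_iff_nat 1, tendsto_iff_norm_sub_tendsto_zero]
  have h1 := (tendsto_sum_nat_add fun l => x l ^ 2).comp (tendsto_add_atTop_nat 1) |>.sqrt
  rw [Real.sqrt_zero] at h1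
  refine h1.congr' ?_
  filter_upwards [eventually_ge_atTop K] with n hn
  rw [part, show K - n = 0 by omega, max_eq_right hn]
  have h2 := (hasSum_nat_add_iff' (n + 1)).2 (n2 (R 0 (n + 1) x - x))
  rw [Finset.sum_eq_zero fun l hl => by
    rw [sub2, R_apply, if_pos (Finset.mem_range.1 hl)]
    split_ifs with h
    · rw [Nat.le_zero.1 h, av_apply]
      simp
    · simp, sub_zero] at h2
  rw [← Real.sqrt_sq (norm_nonneg (R 0 (n + 1) x - x)), ← h2.tsum_eq]
  congr 1
  exact tsum_congr fun l => by rw [sub2, R_apply, if_neg (by omega)]; ring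

lemma av_const {k : ℕ} {x : L2} {c : ℝ} (h : ∀ l, l ≤ k → x l = c) : av k x = c := by
  rw [av_apply, Finset.sum_congr rfl (g := fun _ => c) fun l hl =>
    h l (Nat.lt_succ_iff.1 (Finset.mem_range.1 hl))]
  have : (k : ℝ) + 1 ≠ 0 := by positivity
  simp [this]

noncomputable def D (k : ℕ) : L2 := fin (k + 2) fun l => if l ≤ k then 1 else -((k : ℝ) + 1)

lemma D_lo {k l : ℕ} (h : l ≤ k) : D k l = 1 := by
  rw [D, fin_apply, if_pos (by omega), if_pos h]

lemma D_mid (k : ℕ) : D k (k + 1) = -((k : ℝ) + 1) := by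
  rw [D, fin_apply, if_pos (by omega), if_neg (by omega)]

lemma D_hi {k l : ℕ} (h : k + 1 < l) : D k l = 0 := by
  rw [D, fin_apply, if_neg (by omega)]

lemma av_D {k j : ℕ} (h : k < j) : av j (D k) = 0 := by
  induction j, h using Nat.le_induction with
  | base => rw [av_succ, av_const fun l hl => D_lo hl, D_mid]; simp
  | succ j hj ih => rw [av_succ, ih, D_hi (by omega)]; simp

lemma g_D (j k : ℕ) : g j (D k) = if j = k then (k : ℝ) + 2 else 0 := by
  rw [g_apply]
  rcases lt_trichotomy j k with h | rfl | h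
  · rw [av_const fun l hl => D_lo (by omega), D_lo h, if_neg h.ne, sub_self]
  · rw [av_const fun l hl => D_lo hl, D_mid, if_pos rfl]
    ring
  · rw [av_D h, D_hi (by omega), if_neg h.ne', sub_self]

lemma bio (K n m : ℕ) : cf K n (bv K m) = if n = m then 1 else 0 := by
  have h1 : ∀ l, l ≤ K → fin (K + 1) (fun _ => 1) l = 1 := fun l hl => by
    rw [fin_apply, if_pos (by omega)]
  unfold cf bv
  by_cases hm : m = 0
  · rw [if_pos hm]
    by_cases hn : n = 0
    · rw [if_pos hn, av_const h1, if_pos (by omega)]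
    · rw [if_neg hn, if_neg (show ¬ n = m by omega)]
      split_ifs with h
      · rw [_root_.smul_apply, g_apply, av_const fun l hl => h1 l (by omega), h1 _ (by omega),
          sub_self, smul_zero]
      · rw [ev_apply, fin_apply, if_neg (by omega)]
  rw [if_neg hm]
  by_cases hK : m ≤ K
  · rw [if_pos hK, ← D]
    by_cases hn : n = 0
    · rw [if_pos hn, av_D (by omega), if_neg (by omega)]
    · rw [if_neg hn]
      by_cases h : n ≤ K
      · rw [if_pos h, _root_.smul_apply, g_D]
        by_cases h' : n = m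
        · rw [if_pos h', h', if_pos rfl, smul_eq_mul, inv_mul_cancel₀ (by positivity)]
        · rw [if_neg h', if_neg (by omega), smul_zero]
      · rw [if_neg h, ev_apply, D_hi (by omega), if_neg (by omega)]
  · rw [if_neg hK]
    by_cases hn : n = 0
    · rw [if_pos hn, av_const (c := 0) fun l hl => by rw [e_apply, if_neg (by omega)],
        if_neg (by omega)]
    · rw [if_neg hn]
      by_cases h : n ≤ K
      · rw [if_pos h, _root_.smul_apply, g_e, if_neg (by omega), if_neg (by omega),
          if_neg (by omega), sub_self, smul_zero]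
      · rw [if_neg h, ev_apply, e_apply]

lemma cf_sum (K : ℕ) (b : ℕ → ℝ) {n q : ℕ} (h : n < q) :
    cf K n (∑ i ∈ Finset.range q, b i • bv K i) = b n := by
  simp [map_sum, bio, h]

def E : Type := L2

noncomputable instance : AddCommGroup E := inferInstanceAs (AddCommGroup L2)
noncomputable instance : Module ℝ E := inferInstanceAs (Module ℝ L2)

noncomputable def toL : E ≃ₗ[ℝ] L2 := LinearEquiv.refl ℝ L2

noncomputable instance : NormedAddCommGroup E := AddGroupNorm.toNormedAddCommGroup
  { toFun := fun x => nn (toL x)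
    map_zero' := by simp [nn]
    add_le' := fun x y => by
      simp only [nn, map_add]
      exact norm_add_le _ _
    neg' := fun x => by simp [nn]
    eq_zero_of_map_eq_zero' := fun x hx =>
      toL.map_eq_zero_iff.1 (norm_le_zero_iff.1 ((le_nn _).trans hx.le)) }

lemma normE (x : E) : ‖x‖ = nn (toL x) := rfl

noncomputable instance : NormedSpace ℝ E := ⟨fun c x => by
  simp only [normE, nn, map_smul, norm_smul, le_refl]⟩

lemma nn_le (x : L2) : nn x ≤ (‖io‖ + 2) * ‖x‖ := by
  refine le_of_pow_le_pow_left₀ two_ne_zero (by positivity) ?_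
  have h1 := pow_le_pow_left₀ (norm_nonneg _) (io.le_opNorm x) 2
  have h2 := (abs_le.1 (Hf_le x x)).2
  rw [nn_sq]
  nlinarith [mul_nonneg (norm_nonneg io) (sq_nonneg ‖x‖), sq_nonneg ‖x‖]

noncomputable def eqv : E ≃L[ℝ] L2 := toL.toContinuousLinearEquivOfBounds 1 (‖io‖ + 2)
  (fun x => by rw [normE, one_mul]; exact le_nn _)
  (fun x => by rw [normE, LinearEquiv.apply_symm_apply]; exact nn_le x)

lemma normE' (x : E) : ‖x‖ = nn (eqv x) := rfl

instance : CompleteSpace E :=
  (completeSpace_congr (e := eqv.toEquiv) eqv.isUniformEmbedding).2 inferInstance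

lemma basis (K : ℕ) (x : E) : ∃! b : ℕ → ℝ,
    Tendsto (fun k : ℕ => ∑ i ∈ Finset.range k, b i • eqv.symm (bv K i)) atTop (𝓝 x) := by
  refine ⟨fun i => cf K i (eqv x), ?_, fun b hb => funext fun n => ?_⟩
  · have := (eqv.symm.continuous.tendsto _).comp (part_tend K (eqv x))
    rw [eqv.symm_apply_apply] at this
    exact this.congr fun N => by simp [map_sum]
  · have := (((cf K n).continuous.comp eqv.continuous).tendsto _).comp hb
    refine tendsto_nhds_unique (tendsto_const_nhds.congr' ?_) this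
    filter_upwards [eventually_gt_atTop n] with k hk
    simp only [Function.comp_apply, map_sum eqv, map_smul eqv, eqv.apply_symm_apply]
    exact (cf_sum K b hk).symm

lemma const (K : ℕ) (b : ℕ → ℝ) (p q : ℕ) (h : p ≤ q) :
    ‖∑ i ∈ Finset.range p, b i • eqv.symm (bv K i)‖ ≤
      (1 + 2 * lam K * 4 ^ (K + 1)) * ‖∑ i ∈ Finset.range q, b i • eqv.symm (bv K i)‖ := by
  cases p with
  | zero =>
    rw [Finset.range_zero, Finset.sum_empty, norm_zero]
    have := lam_pos K
    positivity
  | succ p =>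
    simp only [normE', map_sum, map_smul, eqv.apply_symm_apply]
    rw [← Finset.sum_congr rfl fun i hi => congrArg (· • bv K i)
      (cf_sum K b ((Finset.mem_range.1 hi).trans_le h)), part]
    exact nn_R (Nat.sub_le _ _) (by omega) _

lemma const_tend : Tendsto (fun K : ℕ => 1 + 2 * lam K * 4 ^ (K + 1)) atTop (𝓝 1) := by
  have h := ((tendsto_pow_atTop_nhds_zero_of_lt_one (r := (1 / 4 : ℝ)) (by norm_num)
    (by norm_num)).const_mul (1 / 2)).const_add 1
  rw [mul_zero, add_zero] at h
  refine h.congr fun K => ?_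
  rw [lam, mul_assoc, ← mul_pow]
  norm_num
  ring

theorem no_mono (f : ℕ → E) (hf : ∀ x : E, ∃! a : ℕ → ℝ,
      Tendsto (fun n : ℕ => ∑ i ∈ Finset.range n, a i • f i) atTop (𝓝 x))
    (hm : ∀ (a : ℕ → ℝ) (m n : ℕ), m ≤ n →
      ‖∑ i ∈ Finset.range m, a i • f i‖ ≤ ‖∑ i ∈ Finset.range n, a i • f i‖) : False := by
  choose a ha hu using hf
  have hadd : ∀ x y, a (x + y) = a x + a y := fun x y => (hu _ _ (((ha x).add (ha y)).congr
    fun n => by simp [add_smul, Finset.sum_add_distrib])).symm
  have hsm : ∀ (c : ℝ) x, a (c • x) = c • a x := fun c x => (hu _ _ (((ha x).const_smul c).congr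
    fun n => by simp [Finset.smul_sum, smul_smul])).symm
  have hle : ∀ n x, ‖∑ i ∈ Finset.range n, a x i • f i‖ ≤ 1 * ‖x‖ := fun n x => by
    rw [one_mul]
    exact ge_of_tendsto (ha x).norm ((eventually_ge_atTop n).mono fun k hk => hm _ _ _ hk)
  let S : ℕ → E →L[ℝ] E := fun n => LinearMap.mkContinuous
    ⟨⟨fun x => ∑ i ∈ Finset.range n, a x i • f i, fun x y => by
      simp [hadd, add_smul, Finset.sum_add_distrib]⟩, fun c x => by
      simp [hsm, Finset.smul_sum, smul_smul]⟩ 1 (hle n)
  have hS : ∀ n x, S n x = ∑ i ∈ Finset.range n, a x i • f i := fun _ _ => rfl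
  clear_value S
  have hid : ∀ n x, S n (S n x) = S n x := fun n x => by
    have : a (S n x) = fun i => if i < n then a x i else 0 := (hu _ _ (tendsto_const_nhds.congr' (by
      filter_upwards [eventually_ge_atTop n] with k hk
      rw [hS, ← Finset.sum_subset (Finset.range_subset_range.2 hk) fun i _ hi => by
        rw [if_neg (by simpa using hi), zero_smul]]
      exact Finset.sum_congr rfl fun i hi => by rw [if_pos (Finset.mem_range.1 hi)]))).symm
    rw [hS n (S n x), this, hS]
    exact Finset.sum_congr rfl fun i hi => by simp only [if_pos (Finset.mem_range.1 hi)]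
  let P : ℕ → L2 →L[ℝ] L2 := fun n => (eqv : E →L[ℝ] L2) ∘L S n ∘L (eqv.symm : L2 →L[ℝ] E)
  have hP : ∀ n x, P n x = eqv (S n (eqv.symm x)) := fun _ _ => rfl
  clear_value P
  have ht : ∀ x, Tendsto (fun n => P n x) atTop (𝓝 x) := fun x => by
    have := (eqv.continuous.tendsto _).comp (ha (eqv.symm x))
    rw [eqv.apply_symm_apply] at this
    exact this.congr fun n => by rw [hP, hS]; rfl
  have e1 := ((ht (e 0)).prodMk_nhds (ht (e 1))).eventually (U_open.mem_nhds U_e)
  have e2 : ∀ i, ∀ᶠ n in atTop, ‖P n (e i) - e i‖ ≤ 1 / 20 := fun i =>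
    (tendsto_iff_norm_sub_tendsto_zero.1 (ht (e i))).eventually (ge_mem_nhds (by norm_num))
  have e3 : ∀ i, ∀ᶠ n in atTop, 2 * (‖P n (e i) - e i‖ ^ 2 * Hf (P n (e i)) (P n (e i))) <
      ‖io (P n (e i))‖ ^ 4 := fun i => by
    have a1 := (((tendsto_iff_norm_sub_tendsto_zero.1 (ht (e i))).pow 2).mul
      (((ht (e i)).norm.pow 2).add (((T.continuous.tendsto _).comp (ht (e i))).norm.pow 2))).const_mul 2
    have a2 := ((io.continuous.tendsto _).comp (ht (e i))).norm.pow 4
    refine (a1.eventually_lt a2 ?_).mono fun n hn => by rwa [Hf_self]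
    have : io (e i) ≠ 0 := fun h => by
      have := e_norm i
      rw [io_inj h, norm_zero] at this
      exact zero_ne_one this
    simpa using pow_pos (norm_pos_iff.2 this) 4
  obtain ⟨n, ⟨⟨⟨b1, b2⟩, b3⟩, b4⟩, b5⟩ :=
    ((((e1.and (e2 0)).and (e2 1)).and (e3 0)).and (e3 1)).exists
  have := FiniteDimensional.span_of_finite ℝ (finite_range fun i : Fin n => eqv (f i))
  have hfd : FiniteDimensional ℝ (P n).range :=
    Submodule.finiteDimensional_of_le (S₂ := Submodule.span ℝ
      (range fun i : Fin n => eqv (f i))) (by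
      rintro _ ⟨x, rfl⟩
      show P n x ∈ _
      rw [hP, hS, map_sum]
      exact Submodule.sum_mem _ fun i hi => by
        rw [map_smul]
        exact Submodule.smul_mem _ _ (Submodule.subset_span ⟨⟨i, Finset.mem_range.1 hi⟩, rfl⟩))
  refine core (good (fun x => by rw [hP, hP, eqv.symm_apply_apply, hid]) (fun x => ?_) b1) hfd ?_
    (fun i hi => by interval_cases i <;> assumption) fun i hi => by interval_cases i <;> assumption
  · have := hle n (eqv.symm x)
    rwa [one_mul, normE', normE', eqv.apply_symm_apply, ← hS, ← hP] at this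
  · let Bs := Module.finBasis ℝ (P n).range
    let Pr : L2 →L[ℝ] (P n).range := (P n).codRestrict _ fun x => ⟨x, rfl⟩
    have h1 := tendsto_finsetSum Finset.univ fun i _ =>
      (weak0 (LinearMap.toContinuousLinearMap (Bs.coord i) ∘L Pr)).smul_const (Bs i : L2)
    simp only [zero_smul, Finset.sum_const_zero] at h1
    refine h1.congr fun j => ?_
    have h2 := congrArg Subtype.val (Bs.sum_repr (Pr (e j)))
    rw [AddSubmonoidClass.coe_finsetSum] at h2
    exact h2

lemma inf_le {S : Set ℝ} {u : ℕ → ℝ} (h : ∀ K, u K ∈ S) (hu : Tendsto u atTop (𝓝 1)) :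
    sInf S ≤ 1 := by
  by_cases hb : BddBelow S
  · exact ge_of_tendsto' hu fun K => csInf_le hb (h K)
  · rw [Real.sInf_of_not_bddBelow hb]
    exact zero_le_one

end Pool.Agent.H.MP_90e313_an
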